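import Pool.Agent.H84.M.Asm

set_option autoImplicit false

/-!
Every locally Busemann space with a measure satisfying local MCP(K, N) contains a manifold point;
the manifold points are even dense.

Outline of the proof. Let `B` be a small closed ball; it is compact, and nonbranching by measure
contraction. Let `n` be the largest degree in which some Alexander-Spanier cohomology group
`Hⁿ(B, C; ℤ/2)` is nonzero, let `c` be a nonzero class and let `K` be a minimal closed set which
carries `c`. A point `y` of `K` outside `C` cannot be pushed off `K` by a small homotopy, since
classes of degree `n` extend from closed sets to `B`; applied to the contraction towards a point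
`p` this shows that the geodesic from `p` to `y` can be extended inside `K`. With nonbranching,
`K` contains a neighbourhood of `y`, and all geodesics to points near `y` can be extended by a
definite amount. Near a generic point the distance functions from the points of a countable dense
set are differentiable along all geodesics; a maximal system of independent ones is injective and
open near the point.
-/

namespace Pool.Agent.Results.MP_898aa9_gt.ManifoldPoint

open MeasureTheory Pool.Agent.H84.M

/-- Let `X` be a nonempty locally Busemann space and let `m` be a Borel measure on `X` which is
finite on bounded sets, positive on nonempty open sets, and satisfies local MCP(K, N) with `K ≤ 0`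
and `N ≥ 1`. Then `X` contains a manifold point; moreover the manifold points are dense. -/
theorem result {X : Type*} [MetricSpace X] [MeasurableSpace X] [BorelSpace X] [Nonempty X]
    (m : Measure X) (K N : ℝ) (_hK : K ≤ 0) (hN : 1 ≤ N)
    (hfin : ∀ s : Set X, Bornology.IsBounded s → m s < ⊤)
    (hpos : ∀ O : Set X, IsOpen O → O.Nonempty → 0 < m O)
    (hX : LocallyBusemann X) (hm : LocalMCP m K N) :
    (∃ x : X, IsManifoldPoint x) ∧ Dense {x : X | IsManifoldPoint x} := by
  refine ⟨?_, ?_⟩
  · obtain ⟨x0⟩ := ‹Nonempty X›
    obtain ⟨x, _, hx⟩ := exists_manifold_point hN hfin hpos hX hm x0 one_pos
    exact ⟨x, hx⟩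
  · rw [Metric.dense_iff]
    intro x0 r hr
    obtain ⟨x, hd, hx⟩ := exists_manifold_point hN hfin hpos hX hm x0 hr
    exact ⟨x, hd, hx⟩

end Pool.Agent.Results.MP_898aa9_gt.ManifoldPoint
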